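/-
Row d2:gL2T (helper41's SpecG): Minkowski for `nsq`, and the average of functions.  Author: helper87.
-/
import Pool.Agent.helper41.G5.SpecG

set_option autoImplicit false

open Filter Topology MeasureTheory

namespace Pool.Agent.helper90.DH

open Pool.Agent.helper64.D2

/-- Cauchy-Schwarz: `∫ A B ≤ √(∫A²) √(∫B²)`, by the discriminant. -/
theorem gL2T_cs (A B : ℝ → ℝ) (hA : MemLp A 2 volume) (hB : MemLp B 2 volume) :
    (∫ x, A x * B x) ≤ √(nsq A) * √(nsq B) := by
  have hA2 : Integrable (fun x => A x ^ 2) := hA.integrable_sq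
  have hB2 : Integrable (fun x => B x ^ 2) := hB.integrable_sq
  have hAB : Integrable (fun x => A x * B x) := hA.integrable_mul hB
  have hA0 : 0 ≤ nsq A := integral_nonneg fun x => sq_nonneg _
  have hB0 : 0 ≤ nsq B := integral_nonneg fun x => sq_nonneg _
  have hq : ∀ t : ℝ, 0 ≤ nsq B * (t * t) + (2 * ∫ x, A x * B x) * t + nsq A := by
    intro t
    have h1 : (∫ x, (A x + t * B x) ^ 2) = nsq B * (t * t) + (2 * ∫ x, A x * B x) * t + nsq A := by
      have h2 : (fun x => (A x + t * B x) ^ 2) = fun x => (t * t) * B x ^ 2 + ((2 * t) * (A x * B x) + A x ^ 2) := by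
        funext x; ring
      have hI : Integrable (fun x => (2 * t) * (A x * B x) + A x ^ 2) := (hAB.const_mul _).add hA2
      rw [h2, integral_add (hB2.const_mul _) hI,
        integral_add (hAB.const_mul _) hA2, integral_const_mul, integral_const_mul]
      unfold nsq
      ring
    rw [← h1]
    exact integral_nonneg fun x => sq_nonneg _
  have hd := discrim_le_zero hq
  unfold discrim at hd
  have h3 : (∫ x, A x * B x) ^ 2 ≤ nsq A * nsq B := by nlinarith [hd]
  rw [← Real.sqrt_mul hA0]
  exact Real.le_sqrt_of_sq_le h3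

theorem gL2T : gL2T_stmt := by
  refine ⟨?_, ?_⟩
  · intro A B hA hB
    have hA2 : Integrable (fun x => A x ^ 2) := hA.integrable_sq
    have hB2 : Integrable (fun x => B x ^ 2) := hB.integrable_sq
    have hAB : Integrable (fun x => A x * B x) := hA.integrable_mul hB
    have hA0 : 0 ≤ nsq A := integral_nonneg fun x => sq_nonneg _
    have hB0 : 0 ≤ nsq B := integral_nonneg fun x => sq_nonneg _
    have hcs := gL2T_cs A B hA hB
    have h1 : nsq (fun x => A x + B x) = nsq A + (2 * (∫ x, A x * B x) + nsq B) := by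
      have h2 : (fun x => (A x + B x) ^ 2) = fun x => A x ^ 2 + (2 * (A x * B x) + B x ^ 2) := by
        funext x; ring
      show (∫ x, (A x + B x) ^ 2) = _
      have hI : Integrable (fun x => 2 * (A x * B x) + B x ^ 2) := (hAB.const_mul _).add hB2
      rw [h2, integral_add hA2 hI,
        integral_add (hAB.const_mul _) hB2, integral_const_mul]
      rfl
    rw [h1]
    refine Real.sqrt_le_iff.2 ⟨by positivity, ?_⟩
    have e1 := Real.sq_sqrt hA0
    have e2 := Real.sq_sqrt hB0
    nlinarith
  · intro κ S A M hS h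
    have hn : (0 : ℝ) < S.card := by exact_mod_cast hS.card_pos
    have hI : ∀ i ∈ S, Integrable (fun x => A i x ^ 2) := fun i hi => (h i hi).1.integrable_sq
    have hmem : MemLp (fun x => ∑ i ∈ S, A i x) 2 volume := memLp_finsetSum S fun i hi => (h i hi).1
    have hL : Integrable (fun x => ((∑ i ∈ S, A i x) / S.card) ^ 2) := by
      have h0 := hmem.integrable_sq.div_const ((S.card : ℝ) ^ 2)
      refine h0.congr (Eventually.of_forall fun x => ?_)
      simp only [div_pow]
    have hR : Integrable (fun x => (∑ i ∈ S, A i x ^ 2) / S.card) :=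
      (integrable_finsetSum S hI).div_const _
    have h1 : nsq (fun x => (∑ i ∈ S, A i x) / S.card) ≤ ∫ x, (∑ i ∈ S, A i x ^ 2) / S.card := by
      refine integral_mono hL hR fun x => ?_
      show ((∑ i ∈ S, A i x) / (S.card : ℝ)) ^ 2 ≤ (∑ i ∈ S, A i x ^ 2) / S.card
      have hsq : (∑ i ∈ S, A i x) ^ 2 ≤ S.card * ∑ i ∈ S, A i x ^ 2 := sq_sum_le_card_mul_sum_sq
      rw [div_pow, div_le_div_iff₀ (by positivity) hn]
      nlinarith
    refine h1.trans ?_
    rw [integral_div, integral_finsetSum S hI, div_le_iff₀ hn]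
    calc ∑ i ∈ S, ∫ x, A i x ^ 2 ≤ ∑ _i ∈ S, M := Finset.sum_le_sum fun i hi => (h i hi).2
      _ = M * S.card := by rw [Finset.sum_const, nsmul_eq_mul]; ring

end Pool.Agent.helper90.DH
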